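import Pool.Agent.Helper92.W.St
import Pool.Agent.Helper31.EC.Uns

/-!
# RING NOISE: definitions and statements (text: /team-store/ns_notes_69c.md (1.6), /team-store/ns_RING.md)

`z' = z + κ_0 ⋯ κ_j y`, `z, κ_0, …, κ_j` nearly independent given the base, `z'` blind for the `κ_i`, each `κ_i` of rate
`≥ γ` on every prefix (along most paths), `y` a known unit.  Then `z` is full up to `ε`.
-/

set_option autoImplicit false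

namespace Pool.Agent.Helper69.RN

open Finset Pool.Agent.Helper69.RK Pool.Agent.Helper61.GL Pool.Agent.Helper46.WF Pool.Agent.Helper92.W

noncomputable section

section defs

variable {Ω : Type} [Fintype Ω]

/-- the real variable `v` is non-atomic in its cell of level `l` at scale `2 ^ (-(l + ρ))` -/
def NA (μ : Ω → ℝ) (v : Ω → ℝ) (ρ : ℕ) (a : ℝ) (l : ℕ) (ω : Ω) : Prop :=
  ∀ x : ℝ, a ≤ Pw (cw μ (fun ω' => fl l (v ω')) ω) (fun ω' => (1 / 2 : ℝ) ^ (l + ρ) < |v ω' - x|)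

/-- a product noise without base -/
structure RCfg (n j : ℕ) (η γ : ℝ) (μ : Ω → ℝ) (z : Ω → ℝ) (κ : Fin (j + 1) → Ω → ℝ) (y : ℝ) : Prop where
  nn : ∀ ω, 0 ≤ μ ω
  ms : mass μ = 1
  zb : ∀ ω, 0 ≤ z ω ∧ z ω < 1
  kb : ∀ i ω, |κ i ω| ≤ 1
  yb : |y| ≤ 1
  ya : (2 : ℝ) ^ (-(η * n)) ≤ |y|
  /-- near independence of `z` and all `κ_i` -/
  ind : Hh μ (fun ω => fl n (z ω)) + ∑ i, Hh μ (κ i) ≤ Hh μ (fun ω => (fl n (z ω), fun i => κ i ω)) + η * n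
  /-- `z` absorbs the noise -/
  abs : Hh μ (fun ω => fl n (z ω + (∏ i, κ i ω) * y)) ≤ Hh μ (fun ω => fl n (z ω)) + η * n
  /-- all prefixes of `κ_i` are rich, along most paths -/
  br : ∀ i, Pw μ (fun ω => ∃ r : ℕ, r ≤ n ∧
    srp μ (fun ω' => fl r (κ i ω')) (fun _ => ()) ω < γ * r - η * n) ≤ η

/-- a product noise over the base `F` -/
structure RBlk {φ : Type} (n j : ℕ) (η γ : ℝ) (μ : Ω → ℝ) (F : Ω → φ) (z : Ω → ℝ) (κ : Fin (j + 1) → Ω → ℝ)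
    (y : φ → ℝ) : Prop where
  nn : ∀ ω, 0 ≤ μ ω
  ms : mass μ = 1
  zb : ∀ ω, 0 ≤ z ω ∧ z ω < 1
  kb : ∀ i ω, |κ i ω| ≤ 1
  yb : ∀ ω, μ ω ≠ 0 → |y (F ω)| ≤ 1
  ya : Pw μ (fun ω => |y (F ω)| < (2 : ℝ) ^ (-(η * n))) ≤ η
  ind : CH μ (fun ω => fl n (z ω)) F + ∑ i, CH μ (κ i) F ≤ CH μ (fun ω => (fl n (z ω), fun i => κ i ω)) F + η * n
  abs : CH μ (fun ω => fl n (z ω + (∏ i, κ i ω) * y (F ω))) F ≤ CH μ (fun ω => fl n (z ω)) F + η * n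
  br : ∀ i, Pw μ (fun ω => ∃ r : ℕ, r ≤ n ∧
    srp μ (fun ω' => fl r (κ i ω')) F ω < γ * r - η * n) ≤ η

end defs

/-! ### the theorems -/

/-- RING NOISE, finite form without base -/
def ST_RN0 : Prop := ∀ γ ε : ℝ, 0 < γ → γ ≤ 1 → 0 < ε → ∃ j : ℕ, ∃ η : ℝ, 0 < η ∧ ∃ n0 : ℕ, ∀ n : ℕ, n0 ≤ n →
  ∀ (Ω : Type) [Fintype Ω] (μ : Ω → ℝ) (z : Ω → ℝ) (κ : Fin (j + 1) → Ω → ℝ) (y : ℝ),
    RCfg n j η γ μ z κ y → (1 - ε) * n ≤ Hh μ (fun ω => fl n (z ω))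

/-- RING NOISE, finite form over a base -/
def ST_RN : Prop := ∀ γ ε : ℝ, 0 < γ → γ ≤ 1 → 0 < ε → ∃ j : ℕ, ∃ η : ℝ, 0 < η ∧ ∃ n0 : ℕ, ∀ n : ℕ, n0 ≤ n →
  ∀ (Ω φ : Type) [Fintype Ω] (μ : Ω → ℝ) (F : Ω → φ) (z : Ω → ℝ) (κ : Fin (j + 1) → Ω → ℝ) (y : φ → ℝ),
    RBlk n j η γ μ F z κ y → (1 - ε) * n ≤ CH μ (fun ω => fl n (z ω)) F

/-! ### modules -/

open Classical in
/-- CJ (copies and LEMMA K, induction on the number of factors): `|P(ζ)| ≤ 2^(C-T)`, `z` absorbs `P(ζ) κ_0 ⋯ κ_j`;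
then for most tuples `l` and most paths on which all `κ_i` are non-atomic at level `l_i`, the level
`Σ l_i + T + j (ρ + 2) + ρ` is not a deficient level of `z` -/
def ST_CJ : Prop := ∀ (j : ℕ) (c a e : ℝ), 0 < c → c ≤ 1 → 0 < a → 0 < e → ∀ ρ C : ℕ, ∃ R0 : ℕ, ∀ R : ℕ, R0 ≤ R →
  ∃ η : ℝ, 0 < η ∧ ∃ n0 : ℕ, ∀ n T : ℕ, n0 ≤ n → ∀ (Ω α : Type) [Fintype Ω] (μ : Ω → ℝ) (z : Ω → ℝ)
    (ζ : Ω → α) (P : α → ℝ) (κ : Fin (j + 1) → Ω → ℝ),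
    (∀ ω, 0 ≤ μ ω) → mass μ = 1 → (∀ ω, 0 ≤ z ω ∧ z ω < 1) → (∀ i ω, |κ i ω| ≤ 1) →
    (∀ ω, μ ω ≠ 0 → |P (ζ ω)| * 2 ^ T ≤ 2 ^ C) →
    Hh μ (fun ω => fl n (z ω)) + Hh μ ζ + ∑ i, Hh μ (κ i) ≤
      Hh μ (fun ω => (fl n (z ω), ζ ω, fun i => κ i ω)) + η * n →
    CH μ (fun ω => fl n (z ω + P (ζ ω) * ∏ i, κ i ω)) ζ ≤ Hh μ (fun ω => fl n (z ω)) + η * n →
    ∑ l ∈ Fintype.piFinset (fun _ : Fin (j + 1) => range n), Pw μ (fun ω =>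
      ∑ i, l i + T + (j * (ρ + 2) + ρ) ≤ n ∧ 1 ≤ |P (ζ ω)| * 2 ^ T ∧
      DL μ z c R (∑ i, l i + T + (j * (ρ + 2) + ρ)) ω ∧ ∀ i, NA μ (κ i) ρ a (l i) ω) ≤ e * (n : ℝ) ^ (j + 1)

open Classical in
/-- BR: rich prefixes along most paths give non-atomic levels with density `γ / 2` in all prefixes -/
def ST_BR : Prop := ∀ γ : ℝ, 0 < γ → γ ≤ 1 → ∃ ρ : ℕ, ∃ a : ℝ, 0 < a ∧ a ≤ 1 ∧ ∀ ε : ℝ, 0 < ε →
  ∃ η : ℝ, 0 < η ∧ ∃ n0 : ℕ, ∀ n : ℕ, n0 ≤ n → ∀ (Ω : Type) [Fintype Ω] (μ : Ω → ℝ) (v : Ω → ℝ),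
    (∀ ω, 0 ≤ μ ω) → mass μ = 1 → (∀ ω, |v ω| ≤ 1) →
    Pw μ (fun ω => ∃ r : ℕ, r ≤ n ∧ srp μ (fun ω' => fl r (v ω')) (fun _ => ()) ω < γ * r - η * n) ≤ η →
    Pw μ (fun ω => ∃ r : ℕ, r ≤ n ∧
      (((range r).filter (fun l => NA μ v ρ a l ω)).card : ℝ) < γ / 2 * r - ε * n) ≤ ε

open Classical in
/-- TH (thickness): non-atomic at level `l + u` implies non-atomic at level `l` with the same radius, up to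
probability `a / a0` -/
def ST_TH : Prop := ∀ (Ω : Type) [Fintype Ω] (μ : Ω → ℝ) (v : Ω → ℝ), (∀ ω, 0 ≤ μ ω) → mass μ = 1 →
  ∀ (ρ l u M : ℕ) (a0 a : ℝ), u ≤ M → 0 < a0 → 0 < a →
    Pw μ (fun ω => NA μ v ρ a0 (l + u) ω ∧ ¬ NA μ v (ρ + M) a l ω) ≤ a / a0

open Classical in
/-- COMB (integers): sets with density `γ` in all prefixes; the tuples with sum in a given set of density `ε` have
positive density, after thickening by `M` -/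
def ST_CB : Prop := ∀ γ ε : ℝ, 0 < γ → γ ≤ 1 → 0 < ε → ∃ (j M : ℕ) (c η : ℝ), 0 < c ∧ 0 < η ∧ ∃ n0 : ℕ,
  ∀ n : ℕ, n0 ≤ n → ∀ (A : Fin (j + 1) → Finset ℕ) (D : Finset ℕ), (∀ i, A i ⊆ range n) →
    (∀ i (r : ℕ), r ≤ n → γ * r - η * n ≤ (((A i).filter (fun m => m < r)).card : ℝ)) →
    D ⊆ range n → ε * n ≤ (D.card : ℝ) →
    c * (n : ℝ) ^ (j + 1) ≤ (((Fintype.piFinset (fun _ : Fin (j + 1) => range n)).filter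
      (fun m => (∀ i, ∃ u : ℕ, u < M ∧ m i + u ∈ A i) ∧ ∑ i, m i ∈ D)).card : ℝ)

open Classical in
/-- FULL: few deficient levels along most paths give nearly full entropy -/
def ST_FU : Prop := ∀ ε : ℝ, 0 < ε → ∃ c ε' : ℝ, 0 < c ∧ c ≤ 1 ∧ 0 < ε' ∧ ∀ R : ℕ, 1 ≤ R → ∃ n0 : ℕ, ∀ n : ℕ, n0 ≤ n →
  ∀ (Ω : Type) [Fintype Ω] (μ : Ω → ℝ) (z : Ω → ℝ), (∀ ω, 0 ≤ μ ω) → mass μ = 1 → (∀ ω, 0 ≤ z ω ∧ z ω < 1) →
    Pw μ (fun ω => ε' * n ≤ (((range (n + 1)).filter (fun t => DL μ z c R t ω)).card : ℝ)) ≤ ε' →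
    (1 - ε) * n ≤ Hh μ (fun ω => fl n (z ω))

/-- assembly without base -/
def ST_AS : Prop := ST_CJ → ST_BR → ST_TH → ST_CB → ST_FU → ST_RN0

/-- from the form without base to the form over a base -/
def ST_RD : Prop := ST_RN0 → ST_RN

/-! ### exact calculus -/

open Pool.Agent.Helper31.EC Pool.Agent.Helper31.EC.Sp in
/-- RING NOISE in the exact calculus -/
def RNEC : Prop := ∀ γ ε : ℝ, 0 < γ → γ ≤ 1 → 0 < ε → ∃ j : ℕ,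
  ∀ (S : Sp) (A : S.L) (z z' y : QS S) (κ : Fin (j + 1) → QS S),
    QS.dg y 1 ≤ A → IsUnit y → z' = z + (∏ i, κ i) * y →
    I (QS.dg z 1) (QS.vd κ 1) A = 0 → I (QS.dg z' 1) (QS.vd κ 1) A = 0 →
    h (QS.vd κ 1) A = ∑ i, h (QS.dg (κ i) 1) A →
    (∀ (i : Fin (j + 1)) (E : ∀ k, (S.F k).Ω → Prop) (hE : 0 < ul (S.pr E)) (r : ℝ), 0 ≤ r → r ≤ 1 →
      γ * r ≤ h (restL E hE (QS.dg (κ i) r)) (restL E hE A)) →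
    1 - ε ≤ h (QS.dg z 1) A

/-- bridge -/
def ST_BG : Prop := ST_RN → RNEC

end

end Pool.Agent.Helper69.RN
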